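import Pool.Agent.H47.PL.Targets

/-!
Planted random k-CNFs (MP_c62aed_lc), row CR2: counting restrictions on a set of variables.
-/

set_option autoImplicit false

namespace Pool.Agent.H45.PL

open Finset Pool.Agent.H97.RK Pool.Agent.H47.PL

theorem pf_CR2 (hCN2 : T_CN2) : T_CR2 := by
  intro n V x₀ S g q a line h
  classical
  let en : V ≃ Fin V.card := V.equivFin
  let em : Fin V.card → Fin n := fun p => ((en.symm p : V) : Fin n)
  have hemV : ∀ p, em p ∈ V := fun p => (en.symm p).2
  have heminj : Function.Injective em := fun p q h => en.symm.injective (Subtype.ext h)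
  let line' : ℕ → Clause V.card := fun i => univ.filter (fun p => (em p.1, p.2) ∈ line i)
  refine hCN2 V.card S g q a line' ?_
  intro x' A' hA'
  let x : Fin n → Bool := fun u => if hu : u ∈ V then x' (en ⟨u, hu⟩) else x₀ u
  have hxem : ∀ p, x (em p) = x' p := by
    intro p
    have h1 : x (em p) = x' (en ⟨em p, hemV p⟩) := dif_pos (hemV p)
    have h2 : (⟨em p, hemV p⟩ : V) = en.symm p := rfl
    rw [h1, h2, Equiv.apply_symm_apply]
  obtain ⟨i, hi, y, z, hd, hz, hf, hc⟩ := h x (A'.image em) (fun u hu => dif_neg hu)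
    (by
      intro u hu
      obtain ⟨p, _, rfl⟩ := mem_image.1 hu
      exact hemV p)
    (by rw [card_image_of_injective _ heminj]; exact hA')
  refine ⟨i, hi, fun p => y (em p), fun p => z (em p), ?_, ?_, ?_, ?_⟩
  · unfold dst at hd ⊢
    refine le_trans ?_ hd
    refine card_le_card_of_injOn em (fun p hp => ?_) heminj.injOn
    have hp1 : y (em p) ≠ x' p := (mem_filter.1 (mem_coe.1 hp)).2
    refine mem_coe.2 (mem_filter.2 ⟨mem_univ _, ?_⟩)
    rw [hxem]
    exact hp1
  · intro p hp
    exact hz (em p) (mem_image_of_mem em hp)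
  · intro l hl
    exact hf _ (mem_filter.1 hl).2
  · refine hc.trans (Nat.add_le_add_right ?_ g)
    have hsub : A'.image em ∪ (vs (line i) ∩ V) ⊆ (A' ∪ vs (line' i)).image em := by
      intro u hu
      rcases mem_union.1 hu with hu | hu
      · obtain ⟨p, hp, rfl⟩ := mem_image.1 hu
        exact mem_image_of_mem em (mem_union_left _ hp)
      · obtain ⟨hu1, hu2⟩ := mem_inter.1 hu
        obtain ⟨l, hl, rfl⟩ := mem_image.1 hu1
        have he : em (en ⟨l.1, hu2⟩) = l.1 := by
          simp [em]
        refine mem_image.2 ⟨en ⟨l.1, hu2⟩, mem_union_right _ ?_, he⟩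
        refine mem_image.2 ⟨(en ⟨l.1, hu2⟩, l.2), ?_, rfl⟩
        refine mem_filter.2 ⟨mem_univ _, ?_⟩
        change (em (en ⟨l.1, hu2⟩), l.2) ∈ line i
        rw [he]
        exact hl
    exact (card_le_card hsub).trans card_image_le

end Pool.Agent.H45.PL
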