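import Pool.Agent.H47.PL.Targets2

/-!
Random k-CNFs and search (MP_c62aed_lc), row LRN: local search is bounded by a potential.
-/

set_option autoImplicit false

namespace Pool.Agent.H45.PL

open Finset
open Pool.Agent.H97.RK hiding run
open Pool.Agent.H47.PL

theorem pf_LRN : T_LRN := by
  intro n k m F Γ pol B Φ A hk hS hΦ hB hSat hA hstep t
  classical
  have hkR : (0 : ℝ) < (k : ℝ) := by exact_mod_cast hk
  have h2 : (0 : ℝ) < (2 : ℝ) ^ n := by positivity
  have hcard : ((univ : Finset (Fin n → Bool)).card : ℝ) = (2 : ℝ) ^ n := by
    rw [card_univ, Fintype.card_fun, Fintype.card_bool, Fintype.card_fin]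
    push_cast
    rfl
  have hA0 : 0 ≤ A := by
    refine le_trans ?_ hA
    exact div_nonneg (Finset.sum_nonneg fun y _ => hΦ y) h2.le
  -- an average
  have havg : ∀ (f : (Fin n → Bool) → ℝ) (g : (Fin n → Bool) → ℝ) (c : ℝ),
      (∀ y, f y ≤ g y + c) → (∑ y, f y) / 2 ^ n ≤ (∑ y, g y) / 2 ^ n + c := by
    intro f g c hfg
    have h3 : ∑ y, f y ≤ ∑ y, (g y + c) := Finset.sum_le_sum fun y _ => hfg y
    rw [Finset.sum_add_distrib, Finset.sum_const, nsmul_eq_mul, hcard] at h3
    have h4 : (∑ y, g y) / 2 ^ n + c = (∑ y, g y + 2 ^ n * c) / 2 ^ n := by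
      field_simp
    rw [h4]
    exact div_le_div_of_nonneg_right h3 h2.le
  have hinn : ∀ (f g : Fin k → ℝ) (c : ℝ), (∀ i, f i ≤ g i + c) →
      (∑ i, f i) / k ≤ (∑ i, g i) / k + c := by
    intro f g c hfg
    have h3 : ∑ i, f i ≤ ∑ i, (g i + c) := Finset.sum_le_sum fun y _ => hfg y
    rw [Finset.sum_add_distrib, Finset.sum_const, nsmul_eq_mul, card_univ, Fintype.card_fin] at h3
    have h4 : (∑ i, g i) / k + c = (∑ i, g i + k * c) / k := by
      field_simp
    rw [h4]
    exact div_le_div_of_nonneg_right h3 hkR.le
  have hstp : ∀ (q : Fin m → ℝ) (f g : Fin m → ℝ) (c : ℝ), (∑ x, q x = 1) → (∀ x, 0 ≤ q x) →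
      (∀ x, f x ≤ g x + c) → ∑ x, q x * f x ≤ ∑ x, q x * g x + c := by
    intro q f g c hq hq0 hfg
    have h3 : ∑ x, q x * f x ≤ ∑ x, (q x * g x + q x * c) :=
      Finset.sum_le_sum fun x _ => by
        have := mul_le_mul_of_nonneg_left (hfg x) (hq0 x)
        linarith
    rw [Finset.sum_add_distrib, ← Finset.sum_mul, hq, one_mul] at h3
    exact h3
  -- run is at most one
  have hone : ∀ (t : ℕ) (h : List (Fin n → Bool)) (y : Fin n → Bool), run F pol t h y ≤ 1 := by
    intro t
    induction t with
    | zero =>
      intro h y
      unfold run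
      split_ifs <;> norm_num
    | succ t ih =>
      intro h y
      unfold run
      split_ifs with hy
      · exact le_rfl
      · cases hp : pol (y :: h) with
        | none =>
          have h3 := havg (fun y' => run F pol t (y :: h) y') (fun _ => 0) 1
            (fun y' => by simpa using ih (y :: h) y')
          simpa using h3
        | some q =>
          obtain ⟨hq1, hq2⟩ := hS y h q hy hp
          have h3 := hstp q (fun c => (∑ i, run F pol t (y :: h) (flp y (F c i).1)) / k)
            (fun _ => 0) 1 hq1 (fun c => (hq2 c).1) (fun c => by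
              have h4 := hinn (fun i => run F pol t (y :: h) (flp y (F c i).1)) (fun _ => 0) 1
                (fun i => by simpa using ih (y :: h) (flp y (F c i).1))
              simpa using h4)
          simpa using h3
  -- the potential
  have hmain : ∀ (t : ℕ) (h : List (Fin n → Bool)) (y : Fin n → Bool),
      run F pol t h y ≤ Φ y + t * A := by
    intro t
    induction t with
    | zero =>
      intro h y
      by_cases hy : y ∈ B
      · have := hone 0 h y
        have := hB y hy
        push_cast
        linarith
      · have hn : ¬ Sat F y := fun hs => hy (hSat y hs)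
        have : run F pol 0 h y = 0 := by
          unfold run
          rw [if_neg hn]
        rw [this]
        push_cast
        have := hΦ y
        linarith
    | succ t ih =>
      intro h y
      by_cases hy : y ∈ B
      · have h3 := hone (t + 1) h y
        have h4 := hB y hy
        have h5 : 0 ≤ ((t + 1 : ℕ) : ℝ) * A := mul_nonneg (Nat.cast_nonneg _) hA0
        linarith
      · have hn : ¬ Sat F y := fun hs => hy (hSat y hs)
        unfold run
        rw [if_neg hn]
        cases hp : pol (y :: h) with
        | none =>
          have h3 := havg (fun y' => run F pol t (y :: h) y') Φ (t * A)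
            (fun y' => ih (y :: h) y')
          have h4 := hΦ y
          push_cast
          have h5 : (∑ y', run F pol t (y :: h) y') / 2 ^ n ≤ A + t * A := by linarith
          change (∑ y', run F pol t (y :: h) y') / 2 ^ n ≤ _
          linarith
        | some q =>
          obtain ⟨hq1, hq2⟩ := hS y h q hn hp
          have h3 := hstp q (fun c => (∑ i, run F pol t (y :: h) (flp y (F c i).1)) / k)
            (fun c => (∑ i, Φ (flp y (F c i).1)) / k) (t * A) hq1 (fun c => (hq2 c).1)
            (fun c => hinn (fun i => run F pol t (y :: h) (flp y (F c i).1))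
              (fun i => Φ (flp y (F c i).1)) (t * A) (fun i => ih (y :: h) (flp y (F c i).1)))
          have h4 := hstep y q hy hq1 hq2
          push_cast
          change (∑ c, q c * ((∑ i, run F pol t (y :: h) (flp y (F c i).1)) / k)) ≤ _
          have h5 : (∑ c, q c * ((∑ i, run F pol t (y :: h) (flp y (F c i).1)) / k)) ≤
            (∑ c, q c * ((∑ i, Φ (flp y (F c i).1)) / k)) + t * A := h3
          linarith
  have h3 := havg (fun y => run F pol t [] y) Φ (t * A) (fun y => hmain t [] y)
  linarith

end Pool.Agent.H45.PL
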